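import Pool.Agent.MU.Fin

/-! # No nonstandard model of a completion `T` of PA has minimal upper bound degree over the `T_n`

Negative answer to Q1 of MP_06bc04_lc for every completion `T` of Peano arithmetic. -/

set_option autoImplicit false

namespace Pool.Agent.Results.MP_06bc04_lc.NoMinimalUpperBound

open Pool.Agent.MU

/-- Completions of PA exist, and for every completion `T` of PA and every nonstandard model `A`
of `T` with universe `ω` the degree of `A` is not a minimal upper bound of the degrees of the
sets `T_n = T ∩ Σ_n`. This holds for `Σ_n` formulas with a quantifier-free matrix (`Fm.qf`) and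
for `Σ_n` formulas with a bounded, that is `Δ_0`, matrix (`Fm.bdd`). -/
theorem result : (∃ T : Set Fm, IsCompletion T) ∧
    ∀ T : Set Fm, IsCompletion T → ∀ A : Ar ℕ, Models A T → A.NonStd →
      ¬ IsMinUB A.diag (Tn Fm.qf T) ∧ ¬ IsMinUB A.diag (Tn Fm.bdd T) :=
  ⟨⟨_, isCompletion_TA⟩, fun T hT A hA hns => result' T hT A hA hns⟩

end Pool.Agent.Results.MP_06bc04_lc.NoMinimalUpperBound
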